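import Pool.Agent.H30.EE.TargetsP

/-!
# HNB: properties (2b), (2c), (2e) of the pieces of the Harder-Narasimhan filtration
-/

set_option autoImplicit false

namespace Pool.Agent.H94.EE

open MvPolynomial SC Pool.Agent.H27.LV Pool.Agent.H17.VG Pool.Agent.H30.EE

theorem pf_HNB : T_HNB := by
  intro K V _ _ _ M _ φ μ J hφ hJ
  have hM := hJ.mx M le_rfl
  unfold fmu at hM
  refine ⟨by linarith, ?_, ?_⟩
  · intro U hU hmax
    have : FiniteDimensional K U := Submodule.finiteDimensional_of_le hU
    have : FiniteDimensional K J := Submodule.finiteDimensional_of_le hJ.le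
    have h1 := hφ U hU J hJ.le
    have h2 := Submodule.finrank_sup_add_finrank_inf_eq U J
    have h3 := hmax (U ⊓ J) inf_le_left
    have hle : U ⊔ J ≤ M := sup_le hU hJ.le
    have h4 := hJ.mx (U ⊔ J) hle
    have h1' : (φ U : ℚ) + φ J ≤ φ (U ⊓ J) + φ (U ⊔ J) := by exact_mod_cast h1
    have h2' : (Module.finrank K (U ⊔ J : Submodule K V) : ℚ) +
        Module.finrank K (U ⊓ J : Submodule K V) = Module.finrank K U + Module.finrank K J := by
      exact_mod_cast h2
    have h5 : fmu φ μ J ≤ fmu φ μ (U ⊔ J) := by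
      have h6 : μ * ((Module.finrank K (U ⊔ J : Submodule K V) : ℚ) +
          Module.finrank K (U ⊓ J : Submodule K V)) =
          μ * (Module.finrank K U + Module.finrank K J) := by rw [h2']
      unfold fmu at h3 h4 ⊢
      linarith
    exact le_sup_left.trans (hJ.top (U ⊔ J) hle (le_antisymm h4 h5))
  · intro h hh T hT
    have h1 := hJ.mx T hT
    have h2 := hh J hJ.le
    unfold fmu at h1
    linarith

end Pool.Agent.H94.EE
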